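import Pool.Agent.W458.MF.OStm
import Pool.Agent.W521.Density

/-!
Project MFO, part OCNTI: the number of irreducible polynomials of the orthogonal pattern.
-/

set_option autoImplicit false
set_option linter.unusedSectionVars false

open Polynomial

namespace Pool.Agent.W959.MF

open Pool.Agent.W458.MF Pool.Agent.W521.Density

section

variable {l : ℕ} [Fact l.Prime] {K : Type} [Field K] [Fintype K] [Algebra (ZMod l) K]

theorem weilm_aeval (γ : ZMod l) (u : (ZMod l)[X]) (a : K) (ha : a ≠ 0) :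
    aeval a (weilm γ u) = a ^ u.natDegree * aeval (a + algebraMap (ZMod l) K γ / a) u := by
  unfold weilm
  rw [map_sum, aeval_eq_sum_range, Finset.mul_sum]
  refine Finset.sum_congr rfl fun j hj => ?_
  rw [Finset.mem_range] at hj
  simp only [map_mul, map_pow, map_add, aeval_C, aeval_X]
  rw [Algebra.smul_def]
  have h1 : a ^ u.natDegree = a ^ j * a ^ (u.natDegree - j) := by
    rw [← pow_add]
    congr 1
    omega
  have h2 : (a + algebraMap (ZMod l) K γ / a) * a = a ^ 2 + algebraMap (ZMod l) K γ := by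
    field_simp
  rw [h1, ← h2, mul_pow]
  ring

/-- The good points. -/
def Good (g : ℕ) (c : ZMod l) (a : K) : Prop :=
  a ≠ 0 ∧ (∀ d, 0 < d → d < g → a ^ (l ^ d - 1) ≠ 1) ∧
    ∀ i < g, a ^ (l ^ i + 1) ≠ algebraMap (ZMod l) K c

variable {g : ℕ}

theorem Good.pow_ne {c : ZMod l} {a : K} (h : Good g c a) : ∀ d, 0 < d → d < g → a ^ (l ^ d) ≠ a := by
  intro d hd hdg h'
  refine h.2.1 d hd hdg ?_
  have h1 : 0 < l ^ d := pow_pos (Fact.out : l.Prime).pos d
  have h2 : a ^ (l ^ d) = a ^ (l ^ d - 1) * a := by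
    rw [← pow_succ]
    congr 1
    omega
  rw [h2] at h'
  have h3 : a ^ (l ^ d - 1) * a = 1 * a := by rw [h', one_mul]
  exact mul_right_cancel₀ h.1 h3

theorem deg_eq (hK : Module.finrank (ZMod l) K = g) (b : K)
    (hb : ∀ d, 0 < d → d < g → b ^ (l ^ d) ≠ b) : (minpoly (ZMod l) b).natDegree = g := by
  have : FiniteDimensional (ZMod l) K := Module.Finite.of_finite
  have hx : IsIntegral (ZMod l) b := Algebra.IsIntegral.isIntegral b
  have h1 := minpoly.natDegree_pos hx
  have h2 : (minpoly (ZMod l) b).natDegree ≤ g := hK ▸ minpoly.natDegree_le b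
  by_contra h
  exact hb _ h1 (by omega) (pow_minpoly l K b _ rfl)

theorem charP_K : CharP K l := charP_of_injective_algebraMap (algebraMap (ZMod l) K).injective l

theorem alg_pow (c : ZMod l) (d : ℕ) :
    (algebraMap (ZMod l) K c) ^ (l ^ d) = algebraMap (ZMod l) K c := by
  rw [← map_pow, ZMod.pow_card_pow]

theorem theta_ne {c : ZMod l} {a : K} (h : Good g c a) (d : ℕ) (hd : 0 < d) (hdg : d < g) :
    (a + algebraMap (ZMod l) K c / a) ^ (l ^ d) ≠ a + algebraMap (ZMod l) K c / a := by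
  have := charP_K (l := l) (K := K)
  intro h'
  rw [add_pow_char_pow, div_pow, alg_pow] at h'
  have h1 := h.pow_ne d hd hdg
  have h2 := h.2.2 d hdg
  rw [pow_succ] at h2
  have ha := h.1
  have hb : a ^ (l ^ d) ≠ 0 := pow_ne_zero _ ha
  generalize a ^ (l ^ d) = b at *
  generalize algebraMap (ZMod l) K c = e at *
  field_simp at h'
  have h3 : (b - a) * (b * a - e) = 0 := by linear_combination h'
  rcases mul_eq_zero.1 h3 with h4 | h4
  · exact h1 (sub_eq_zero.1 h4)
  · exact h2 (sub_eq_zero.1 h4)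

theorem dual_ne {c : ZMod l} (hc : c ≠ 0) {a : K} (h : Good g c a) (d : ℕ) (hd : 0 < d)
    (hdg : d < g) : (algebraMap (ZMod l) K c / a) ^ (l ^ d) ≠ algebraMap (ZMod l) K c / a := by
  intro h'
  rw [div_pow, alg_pow] at h'
  have h1 := h.pow_ne d hd hdg
  have ha := h.1
  have hb : a ^ (l ^ d) ≠ 0 := pow_ne_zero _ ha
  have he : algebraMap (ZMod l) K c ≠ 0 := by
    rwa [Ne, map_eq_zero]
  apply h1
  rw [div_eq_div_iff hb ha] at h'
  exact (mul_left_cancel₀ he h').symm

theorem conj_pow (hK : Module.finrank (ZMod l) K = g) (a b : K)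
    (h : aeval b (minpoly (ZMod l) a) = 0) : ∃ i < g, b = a ^ (l ^ i) := by
  have : FiniteDimensional (ZMod l) K := Module.Finite.of_finite
  have hx : IsIntegral (ZMod l) a := Algebra.IsIntegral.isIntegral a
  have h1 := isConjRoot_of_aeval_eq_zero hx h
  obtain ⟨σ, hσ⟩ := (isConjRoot_iff_exists_algEquiv.1 h1)
  obtain ⟨i, hi⟩ := (FiniteField.bijective_frobeniusAlgEquivOfAlgebraic_pow (ZMod l) K).2 σ.symm
  have h2 : σ.symm a = b := by
    rw [← hσ, AlgEquiv.symm_apply_apply]
  refine ⟨i, hK ▸ i.2, ?_⟩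
  rw [← h2, ← hi]
  simp only [AlgEquiv.coe_pow]
  rw [FiniteField.coe_frobeniusAlgEquivOfAlgebraic_iterate, ZMod.card]

theorem norm_eq (a : K) (ha : (minpoly (ZMod l) a).natDegree = Module.finrank (ZMod l) K) :
    Algebra.norm (ZMod l) a =
      (-1) ^ (Module.finrank (ZMod l) K) * (minpoly (ZMod l) a).coeff 0 := by
  have : FiniteDimensional (ZMod l) K := Module.Finite.of_finite
  have hx : IsIntegral (ZMod l) a := Algebra.IsIntegral.isIntegral a
  have h := (Field.primitive_element_iff_minpoly_natDegree_eq (ZMod l) a).2 ha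
  let pb : PowerBasis (ZMod l) K := (IntermediateField.adjoin.powerBasis hx).map
    ((IntermediateField.equivOfEq h).trans IntermediateField.topEquiv)
  have hgen : pb.gen = a := by
    simp [pb]
  have h1 := Algebra.PowerBasis.norm_gen_eq_coeff_zero_minpoly pb
  rw [hgen] at h1
  rw [h1, pb.finrank]

theorem rev_eq (hK : Module.finrank (ZMod l) K = g) {c : ZMod l} (hc : c ≠ 0) {a : K}
    (h : Good g c a) : ((minpoly (ZMod l) a).comp (C c * X)).reverse =
      C ((minpoly (ZMod l) a).coeff 0) * minpoly (ZMod l) (algebraMap (ZMod l) K c / a) := by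
  have : FiniteDimensional (ZMod l) K := Module.Finite.of_finite
  have hxa : IsIntegral (ZMod l) a := Algebra.IsIntegral.isIntegral a
  have hxb : IsIntegral (ZMod l) (algebraMap (ZMod l) K c / a) := Algebra.IsIntegral.isIntegral _
  have hda : (minpoly (ZMod l) a).natDegree = g := deg_eq hK a h.pow_ne
  have hdb : (minpoly (ZMod l) (algebraMap (ZMod l) K c / a)).natDegree = g :=
    deg_eq hK _ (dual_ne hc h)
  have hc0 : (minpoly (ZMod l) a).coeff 0 ≠ 0 := minpoly.coeff_zero_ne_zero hxa h.1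
  set f := minpoly (ZMod l) a with hf
  set p := f.comp (C c * X) with hp
  have hdp : p.natDegree = g := by
    rw [hp, natDegree_comp, natDegree_C_mul_X c hc, hda, mul_one]
  have hp0 : p.coeff 0 = f.coeff 0 := by
    rw [coeff_zero_eq_eval_zero, hp, eval_comp, coeff_zero_eq_eval_zero]
    simp
  have hR1 : p.reverse.natDegree ≤ g := hdp ▸ reverse_natDegree_le p
  have hR2 : p.reverse.coeff g = f.coeff 0 := by
    rw [coeff_reverse, hdp, revAt_le le_rfl, Nat.sub_self, hp0]
  have hR3 : p.reverse.natDegree = g := by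
    refine le_antisymm hR1 (le_natDegree_of_ne_zero ?_)
    rw [hR2]
    exact hc0
  have he : algebraMap (ZMod l) K c ≠ 0 := by
    rwa [Ne, map_eq_zero]
  have hroot : aeval (algebraMap (ZMod l) K c / a) p.reverse = 0 := by
    have hne : a / algebraMap (ZMod l) K c ≠ 0 := div_ne_zero h.1 he
    let _ := invertibleOfNonzero hne
    have h1 := eval₂_reverse_mul_pow (algebraMap (ZMod l) K) (a / algebraMap (ZMod l) K c) p
    have h2 : eval₂ (algebraMap (ZMod l) K) (a / algebraMap (ZMod l) K c) p = 0 := by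
      rw [hp, eval₂_comp]
      simp only [eval₂_mul, eval₂_C, eval₂_X]
      rw [mul_div_cancel₀ _ he, ← aeval_def]
      exact minpoly.aeval _ a
    rw [h2, invOf_eq_inv, inv_div] at h1
    exact (mul_eq_zero.1 h1).resolve_right (pow_ne_zero _ hne)
  have hdvd := minpoly.dvd (ZMod l) _ hroot
  have h3 := eq_leadingCoeff_mul_of_monic_of_dvd_of_natDegree_le (minpoly.monic hxb) hdvd
    (by rw [hR3, hdb])
  rw [h3, leadingCoeff, hR3, hR2]

theorem good_mem (hWM : St_WM) (hK : Module.finrank (ZMod l) K = g) (r : ℕ)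
    (hr : ¬ l ∣ r) (κ : (ZMod l)ˣ) (a : K) (h : Good g ((r : ZMod l) ^ 2) a)
    (hsq : IsSquare ((κ : ZMod l) * (Algebra.norm (ZMod l) a * (r : ZMod l) ^ g))) :
    minpoly (ZMod l) (a + algebraMap (ZMod l) K ((r : ZMod l) ^ 2) / a) ∈
      irrSet g l ∩ halved g l r κ := by
  have : FiniteDimensional (ZMod l) K := Module.Finite.of_finite
  have hr0 : (r : ZMod l) ≠ 0 := by
    rwa [Ne, ZMod.natCast_eq_zero_iff]
  have hc : ((r : ZMod l) ^ 2) ≠ 0 := pow_ne_zero _ hr0
  set c : ZMod l := (r : ZMod l) ^ 2 with hcdef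
  set θ : K := a + algebraMap (ZMod l) K c / a with hθ
  set b : K := algebraMap (ZMod l) K c / a with hb
  have hxa : IsIntegral (ZMod l) a := Algebra.IsIntegral.isIntegral a
  have hxb : IsIntegral (ZMod l) b := Algebra.IsIntegral.isIntegral b
  have hxt : IsIntegral (ZMod l) θ := Algebra.IsIntegral.isIntegral θ
  have hda : (minpoly (ZMod l) a).natDegree = g := deg_eq hK a h.pow_ne
  have hdb : (minpoly (ZMod l) b).natDegree = g := deg_eq hK _ (dual_ne hc h)
  have hdt : (minpoly (ZMod l) θ).natDegree = g := deg_eq hK θ (theta_ne h)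
  have hma := minpoly.monic hxa
  have hmb := minpoly.monic hxb
  have hmt := minpoly.monic hxt
  have hia := minpoly.irreducible hxa
  have hib := minpoly.irreducible hxb
  have he : algebraMap (ZMod l) K c ≠ 0 := by
    rwa [Ne, map_eq_zero]
  have hb0 : b ≠ 0 := div_ne_zero he h.1
  have hne : minpoly (ZMod l) a ≠ minpoly (ZMod l) b := by
    intro h'
    have h1 : aeval b (minpoly (ZMod l) a) = 0 := by
      rw [h']
      exact minpoly.aeval _ b
    obtain ⟨i, hi, hi'⟩ := conj_pow hK a b h1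
    refine h.2.2 i hi ?_
    rw [pow_succ, ← hi', hb, div_mul_cancel₀ _ h.1]
  obtain ⟨hwm, hwd⟩ := (hWM l Fact.out c).2.2.1 (minpoly (ZMod l) θ) hmt
  rw [hdt] at hwd
  set w := weilm c (minpoly (ZMod l) θ) with hw
  have hwa : minpoly (ZMod l) a ∣ w := by
    apply minpoly.dvd
    rw [hw, weilm_aeval c _ a h.1, ← hb, ← hθ, minpoly.aeval, mul_zero]
  have hwb : minpoly (ZMod l) b ∣ w := by
    apply minpoly.dvd
    have h1 : b + algebraMap (ZMod l) K c / b = θ := by
      have h2 : algebraMap (ZMod l) K c / b = a := by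
        rw [hb, div_div_cancel₀ he]
      rw [h2, hθ, add_comm]
    rw [hw, weilm_aeval c _ b hb0, h1, minpoly.aeval, mul_zero]
  have hcop : IsCoprime (minpoly (ZMod l) a) (minpoly (ZMod l) b) := by
    rw [hia.coprime_iff_not_dvd]
    intro hdvd
    apply hne
    exact eq_of_monic_of_associated hma hmb (hia.associated_of_dvd hib hdvd)
  have hweq : w = minpoly (ZMod l) a * minpoly (ZMod l) b := by
    have h1 := hcop.mul_dvd hwa hwb
    have h2 := eq_leadingCoeff_mul_of_monic_of_dvd_of_natDegree_le (hma.mul hmb) h1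
      (by rw [hma.natDegree_mul hmb, hda, hdb, hwd]; omega)
    rw [hwm.leadingCoeff, C_1, one_mul] at h2
    exact h2
  refine ⟨⟨hmt, hdt, minpoly.irreducible hxt⟩, hmt, hdt, ?_, minpoly (ZMod l) a, hma, hda,
    minpoly.coeff_zero_ne_zero hxa h.1, ?_, ?_⟩
  · rw [← hw, hweq]
    rw [squarefree_mul_iff]
    exact ⟨hcop.isRelPrime, hia.squarefree, hib.squarefree⟩
  · rw [norm_eq a (hda.trans hK.symm), hK] at hsq
    exact hsq
  · rw [← hw, hweq, rev_eq hK hc h]
    ring

theorem card_pow_le (ζ : K) (hζ : ζ ≠ 0) (k : ℕ) (hk : 0 < k) (e : K) [DecidableEq K] :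
    (Finset.univ.filter (fun x : K => (ζ * x ^ 2) ^ k = e)).card ≤ 2 * k := by
  set P : K[X] := (C ζ * X ^ 2) ^ k - C e with hP
  have hd1 : ((C ζ * X ^ 2) ^ k : K[X]).natDegree = 2 * k := by
    rw [natDegree_pow, natDegree_C_mul_X_pow 2 ζ hζ]
    ring
  have hd : P.natDegree = 2 * k := by
    rw [hP, natDegree_sub_C, hd1]
  have hP0 : P ≠ 0 := by
    intro h0
    rw [h0, natDegree_zero] at hd
    omega
  have hsub : (Finset.univ.filter (fun x : K => (ζ * x ^ 2) ^ k = e)) ⊆ P.roots.toFinset := by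
    intro x hx
    rw [Multiset.mem_toFinset, mem_roots hP0, IsRoot.def, hP]
    simp only [eval_sub, eval_pow, eval_mul, eval_C, eval_X]
    rw [(Finset.mem_filter.1 hx).2, sub_self]
  refine (Finset.card_le_card hsub).trans ((Multiset.toFinset_card_le _).trans ?_)
  exact (card_roots' _).trans hd.le


theorem card_good (hg : 0 < g) (hl : 14 * g ≤ l) (hK : Module.finrank (ZMod l) K = g)
    (c : ZMod l) (ζ : K) (hζ : ζ ≠ 0) (G : Finset K) (hG : ∀ x, Good g c (ζ * x ^ 2) → x ∈ G) :
    l ^ g ≤ 2 * G.card := by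
  classical
  have hcard : Fintype.card K = l ^ g := by
    rw [Module.card_eq_pow_finrank (K := ZMod l) (V := K), hK, ZMod.card]
  have hl0 : 0 < l := (Fact.out : l.Prime).pos
  have hl1 : 1 < l := (Fact.out : l.Prime).one_lt
  set A : ℕ → Finset K := fun d => if d = 0 then ∅ else
    Finset.univ.filter (fun x : K => (ζ * x ^ 2) ^ (l ^ d - 1) = 1) with hA
  set B : ℕ → Finset K := fun i =>
    Finset.univ.filter (fun x : K => (ζ * x ^ 2) ^ (l ^ i + 1) = algebraMap (ZMod l) K c) with hB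
  have hsub : (Finset.univ : Finset K) ⊆
      G ∪ ({0} ∪ ((Finset.range g).biUnion A ∪ (Finset.range g).biUnion B)) := by
    intro x _
    by_cases hx : Good g c (ζ * x ^ 2)
    · exact Finset.mem_union_left _ (hG x hx)
    · refine Finset.mem_union_right _ ?_
      by_cases hx0 : x = 0
      · exact Finset.mem_union_left _ (Finset.mem_singleton.2 hx0)
      refine Finset.mem_union_right _ ?_
      unfold Good at hx
      by_contra hcon
      rw [Finset.mem_union, not_or] at hcon
      apply hx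
      refine ⟨mul_ne_zero hζ (pow_ne_zero _ hx0), fun d hd hdg h => ?_, fun i hi h => ?_⟩
      · apply hcon.1
        rw [Finset.mem_biUnion]
        refine ⟨d, Finset.mem_range.2 hdg, ?_⟩
        rw [hA]
        simp only [if_neg hd.ne']
        exact Finset.mem_filter.2 ⟨Finset.mem_univ _, h⟩
      · apply hcon.2
        rw [Finset.mem_biUnion]
        exact ⟨i, Finset.mem_range.2 hi, Finset.mem_filter.2 ⟨Finset.mem_univ _, h⟩⟩
  have h1 := Finset.card_le_card hsub
  rw [Finset.card_univ, hcard] at h1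
  have hpow : ∀ d ∈ Finset.range g, l ^ d ≤ l ^ (g - 1) := by
    intro d hd
    rw [Finset.mem_range] at hd
    exact Nat.pow_le_pow_right hl0 (by omega)
  have h1p : 1 ≤ l ^ (g - 1) := Nat.one_le_pow _ _ hl0
  have hAc : ((Finset.range g).biUnion A).card ≤ g * (2 * l ^ (g - 1)) := by
    refine Finset.card_biUnion_le.trans ?_
    refine (Finset.sum_le_card_nsmul _ _ (2 * l ^ (g - 1)) fun d hd => ?_).trans ?_
    · rw [hA]
      by_cases hd0 : d = 0
      · simp [hd0]
      · simp only [if_neg hd0]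
        have h2 : 1 < l ^ d := Nat.one_lt_pow hd0 hl1
        refine (card_pow_le ζ hζ (l ^ d - 1) (by omega) 1).trans ?_
        have := hpow d hd
        omega
    · simp
  have hBc : ((Finset.range g).biUnion B).card ≤ g * (4 * l ^ (g - 1)) := by
    refine Finset.card_biUnion_le.trans ?_
    refine (Finset.sum_le_card_nsmul _ _ (4 * l ^ (g - 1)) fun d hd => ?_).trans ?_
    · rw [hB]
      refine (card_pow_le ζ hζ (l ^ d + 1) (by omega) _).trans ?_
      have := hpow d hd
      omega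
    · simp
  have h2 := Finset.card_union_le G ({0} ∪ ((Finset.range g).biUnion A ∪ (Finset.range g).biUnion B))
  have h3 := Finset.card_union_le {0} ((Finset.range g).biUnion A ∪ (Finset.range g).biUnion B)
  have h4 := Finset.card_union_le ((Finset.range g).biUnion A) ((Finset.range g).biUnion B)
  rw [Finset.card_singleton] at h3
  have h5 : l ^ g = l * l ^ (g - 1) := by
    rw [← pow_succ']
    congr 1
    omega
  have h6 : 14 * g * l ^ (g - 1) ≤ l ^ g := by
    rw [h5]
    exact Nat.mul_le_mul_right _ hl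
  have h7 : l ^ (g - 1) ≤ g * l ^ (g - 1) := Nat.le_mul_of_pos_left _ hg
  nlinarith

theorem fibre (hWM : St_WM) {c : ZMod l} (ζ : K) (hζ : ζ ≠ 0) (u : (ZMod l)[X])
    (hu : u.Monic) (hg : 0 < g) (hug : u.natDegree = g) (G : Finset K)
    (hG : ∀ x ∈ G, Good g c (ζ * x ^ 2) ∧
      minpoly (ZMod l) (ζ * x ^ 2 + algebraMap (ZMod l) K c / (ζ * x ^ 2)) = u) :
    G.card ≤ 4 * g := by
  classical
  obtain ⟨hwm, hwd⟩ := (hWM l Fact.out c).2.2.1 u hu
  rw [hug] at hwd
  set P : K[X] := ((weilm c u).map (algebraMap (ZMod l) K)).comp (C ζ * X ^ 2) with hP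
  have hPd : P.natDegree = 4 * g := by
    rw [hP, natDegree_comp, natDegree_C_mul_X_pow 2 ζ hζ, hwm.natDegree_map, hwd]
    ring
  have hP0 : P ≠ 0 := by
    intro h0
    rw [h0, natDegree_zero] at hPd
    omega
  have hsub : G ⊆ P.roots.toFinset := by
    intro x hx
    obtain ⟨h1, h2⟩ := hG x hx
    rw [Multiset.mem_toFinset, mem_roots hP0, IsRoot.def, hP, eval_comp]
    simp only [eval_pow, eval_mul, eval_C, eval_X]
    rw [eval_map, ← aeval_def, weilm_aeval c u _ h1.1, ← h2, minpoly.aeval, mul_zero]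
  refine (Finset.card_le_card hsub).trans ((Multiset.toFinset_card_le _).trans ?_)
  exact (card_roots' _).trans hPd.le

end

theorem fin_monic (g l : ℕ) [Fact l.Prime] : {f : (ZMod l)[X] | f.Monic ∧ f.natDegree = g}.Finite := by
  refine (Set.finite_range (mkPoly (R := ZMod l) g)).subset ?_
  rintro f ⟨h1, h2⟩
  exact ⟨_, eq_mkPoly h1 h2⟩

theorem ocnti (hWM : St_WM) : St_OCNTI := by
  classical
  intro g hg
  refine ⟨1 / (8 * g), by positivity, 14 * g, ?_⟩
  intro l hl hlg r hr κ
  have : Fact l.Prime := ⟨hl⟩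
  have hg0 : g ≠ 0 := by omega
  let K := GaloisField l g
  have : Fintype K := Fintype.ofFinite K
  have hK : Module.finrank (ZMod l) K = g := GaloisField.finrank l hg0
  have hr0 : (r : ZMod l) ≠ 0 := by
    rwa [Ne, ZMod.natCast_eq_zero_iff]
  have hv : (κ : ZMod l) * (r : ZMod l) ^ g ≠ 0 := mul_ne_zero κ.ne_zero (pow_ne_zero _ hr0)
  obtain ⟨ζ, hζ⟩ := FiniteField.norm_surjective (ZMod l) K ((κ : ZMod l) * (r : ZMod l) ^ g)⁻¹
  have hζ0 : ζ ≠ 0 := by
    rintro rfl
    rw [Algebra.norm_zero] at hζ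
    exact inv_ne_zero hv hζ.symm
  set c : ZMod l := (r : ZMod l) ^ 2 with hc
  set G : Finset K := Finset.univ.filter (fun x => Good g c (ζ * x ^ 2)) with hG
  have h1 : l ^ g ≤ 2 * G.card := card_good (by omega) hlg hK c ζ hζ0 G
    (fun x hx => Finset.mem_filter.2 ⟨Finset.mem_univ _, hx⟩)
  set φ : K → (ZMod l)[X] := fun x =>
    minpoly (ZMod l) (ζ * x ^ 2 + algebraMap (ZMod l) K c / (ζ * x ^ 2)) with hφ
  have hmem : ∀ x ∈ G, φ x ∈ irrSet g l ∩ halved g l r κ := by
    intro x hx
    refine good_mem hWM hK r hr κ (ζ * x ^ 2) (Finset.mem_filter.1 hx).2 ?_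
    refine ⟨Algebra.norm (ZMod l) x, ?_⟩
    rw [map_mul, map_pow, hζ]
    field_simp
  have h2 : G.card ≤ (4 * g) * (G.image φ).card := by
    refine Finset.card_le_mul_card_image G (4 * g) fun u hu => ?_
    obtain ⟨x, hx, rfl⟩ := Finset.mem_image.1 hu
    have hm := (hmem x hx).1
    refine fibre hWM (c := c) ζ hζ0 (φ x) hm.1 (by omega) hm.2.1 _ fun y hy => ?_
    obtain ⟨hy1, hy2⟩ := Finset.mem_filter.1 hy
    exact ⟨(Finset.mem_filter.1 hy1).2, hy2⟩
  have hfin : (irrSet g l ∩ halved g l r κ).Finite :=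
    (fin_monic g l).subset fun f hf => ⟨hf.1.1, hf.1.2.1⟩
  have h3 : (G.image φ).card ≤ (irrSet g l ∩ halved g l r κ).ncard := by
    rw [← Set.ncard_coe_finset]
    refine Set.ncard_le_ncard ?_ hfin
    intro f hf
    obtain ⟨x, hx, rfl⟩ := Finset.mem_image.1 (Finset.mem_coe.1 hf)
    exact hmem x hx
  have h4 : l ^ g ≤ 8 * g * (irrSet g l ∩ halved g l r κ).ncard := by
    calc l ^ g ≤ 2 * G.card := h1
      _ ≤ 2 * ((4 * g) * (G.image φ).card) := Nat.mul_le_mul_left _ h2
      _ = 8 * g * (G.image φ).card := by ring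
      _ ≤ _ := Nat.mul_le_mul_left _ h3
  have h5 : (l : ℝ) ^ g ≤ 8 * g * ((irrSet g l ∩ halved g l r κ).ncard : ℝ) := by
    exact_mod_cast h4
  have hg' : (0 : ℝ) < g := by exact_mod_cast (by omega : 0 < g)
  rw [one_div, inv_mul_le_iff₀ (by positivity)]
  exact h5

end Pool.Agent.W959.MF
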